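import Pool.Agent.Helper94.Tot.Goals

/-!
# Packet GS: the general upper bound sieve
-/

set_option autoImplicit false

open Finset Filter Topology

namespace Pool.Agent.Helper89.Tot

open Pool.Agent.Helper94.Tot Pool.Agent.Helper90.Twin

theorem sum_le_log (z : ℕ) (hz : 4 ≤ z) : ∑ m ∈ Icc 5 z, 1 / (m : ℝ) ≤ Real.log z := by
  induction z, hz using Nat.le_induction with
  | base =>
    rw [Finset.Icc_eq_empty (by norm_num), Finset.sum_empty]
    exact Real.log_nonneg (by norm_num)
  | succ z hz ih =>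
    rw [Finset.sum_Icc_succ_top (by omega)]
    have h0 : (0 : ℝ) < z := by exact_mod_cast (by omega : 0 < z)
    have h1 : (0 : ℝ) < ((z + 1 : ℕ) : ℝ) / z := by positivity
    have h2 := Real.one_sub_inv_le_log_of_pos h1
    rw [Real.log_div (by positivity) h0.ne'] at h2
    have h3 : 1 - (((z + 1 : ℕ) : ℝ) / z)⁻¹ = 1 / ((z + 1 : ℕ) : ℝ) := by
      rw [inv_div]
      have h4 : ((z + 1 : ℕ) : ℝ) ≠ 0 := by positivity
      field_simp
      push_cast
      ring
    rw [h3] at h2
    linarith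

theorem Sz_le_log {z : ℕ} (hz : 4 ≤ z) : Sz z ≤ Real.log z := by
  refine le_trans ?_ (sum_le_log z hz)
  exact Finset.sum_le_sum_of_subset_of_nonneg (Finset.filter_subset _ _)
    (fun _ _ _ => by positivity)

/-- PACKET GS. -/
theorem pf_GS : StmtGS := by
  obtain ⟨K0, hK0⟩ := fundamental (κ := 2) (by norm_num) (δ := 1) (by norm_num) (A := 3)
    (by norm_num)
  obtain ⟨z0, hz0⟩ := eventually_atTop.1 hK0
  set z1 := max z0 5 with hz1
  refine ⟨K0 + 3, 2 + Real.exp (3 * Sz z1), by omega, by positivity, ?_⟩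
  intro z N hN hzN w hw
  have hNr : (1 : ℝ) ≤ N := by exact_mod_cast hN
  have hfac : ∀ p ∈ Ps z, 0 ≤ 1 - nu w p / p := by
    intro p hp
    have := hw.frac_le (mem_Ps.1 hp).2.2 (mem_Ps.1 hp).1
    linarith
  have hprod : 0 ≤ ∏ p ∈ Ps z, (1 - nu w p / p) := Finset.prod_nonneg hfac
  set P := ∏ p ∈ Ps z, (1 - nu w p / p) with hP
  have hE : 0 < Real.exp (-(3 * Sz z)) := Real.exp_pos _
  have hE1 : 0 < Real.exp (3 * Sz z1) := Real.exp_pos _
  rcases le_or_gt z1 z with h | h
  · have h1 := hz0 z ((le_max_left _ _).trans h) w hw N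
    have h2 := (abs_le.1 h1).2
    have hz5 : 5 ≤ z := (le_max_right _ _).trans h
    have hzr : (0 : ℝ) < z := by exact_mod_cast (by omega : 0 < z)
    have h3 : (z : ℝ) ^ K0 ≤ N * Real.exp (-(3 * Sz z)) := by
      have e1 : ((z : ℝ) ^ 3)⁻¹ ≤ Real.exp (-(3 * Sz z)) := by
        have e2 : Real.exp (-(3 * Real.log z)) = ((z : ℝ) ^ 3)⁻¹ := by
          rw [Real.exp_neg, show (3 : ℝ) * Real.log z = ((3 : ℕ) : ℝ) * Real.log z by norm_num,
            Real.exp_nat_mul, Real.exp_log hzr]
        rw [← e2]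
        apply Real.exp_le_exp.2
        have := Sz_le_log (z := z) (by omega)
        linarith
      have e3 : (z : ℝ) ^ K0 * (z : ℝ) ^ 3 ≤ N := by
        rw [← pow_add]
        exact_mod_cast hzN
      have e4 : (z : ℝ) ^ K0 ≤ N * ((z : ℝ) ^ 3)⁻¹ := by
        rw [← div_eq_mul_inv, le_div_iff₀ (by positivity)]
        exact e3
      exact e4.trans (mul_le_mul_of_nonneg_left e1 (by linarith))
    have h4 : (2 : ℝ) * (N * (P + Real.exp (-(3 * Sz z)))) ≤
        (2 + Real.exp (3 * Sz z1)) * (N * (P + Real.exp (-(3 * Sz z)))) :=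
      mul_le_mul_of_nonneg_right (by linarith) (by positivity)
    calc ∑ t ∈ range N, ∏ p ∈ Ps z, (1 - w p t)
        ≤ N * P + (1 * (N * P) + (N * Real.exp (-(3 * Sz z)) + (z : ℝ) ^ K0)) := by linarith
      _ ≤ 2 * (N * (P + Real.exp (-(3 * Sz z)))) := by nlinarith
      _ ≤ _ := h4
      _ = _ := by ring
  · have h1 : ∑ t ∈ range N, ∏ p ∈ Ps z, (1 - w p t) ≤ N := by
      calc ∑ t ∈ range N, ∏ p ∈ Ps z, (1 - w p t) ≤ ∑ t ∈ range N, (1 : ℝ) := by
            apply Finset.sum_le_sum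
            intro t _
            apply Finset.prod_le_one
            · intro p hp
              have := hw.le_one p (mem_Ps.1 hp).2.2 (mem_Ps.1 hp).1 t
              linarith
            · intro p hp
              have := hw.nonneg p (mem_Ps.1 hp).2.2 (mem_Ps.1 hp).1 t
              linarith
        _ = N := by simp
    have h2 : 1 ≤ Real.exp (3 * Sz z1) * Real.exp (-(3 * Sz z)) := by
      rw [← Real.exp_add]
      apply Real.one_le_exp
      have := Sz_mono h.le
      linarith
    have h3 : Real.exp (3 * Sz z1) * Real.exp (-(3 * Sz z)) ≤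
        (2 + Real.exp (3 * Sz z1)) * (P + Real.exp (-(3 * Sz z))) :=
      mul_le_mul (by linarith) (by linarith) hE.le (by positivity)
    calc ∑ t ∈ range N, ∏ p ∈ Ps z, (1 - w p t) ≤ N * 1 := by rw [mul_one]; exact h1
      _ ≤ N * ((2 + Real.exp (3 * Sz z1)) * (P + Real.exp (-(3 * Sz z)))) :=
          mul_le_mul_of_nonneg_left (h2.trans h3) (by linarith)
      _ = _ := by ring

end Pool.Agent.Helper89.Tot
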